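import Pool.Agent.Helper24.HW.Stmts

set_option autoImplicit false

namespace Pool.Agent.Helper25.HW

open Equiv Equiv.Perm Pool.Agent.Helper24.HW Pool.Agent.Helper24.HWPub Pool.Agent.Helper98.Gn

theorem CK : ST_CK := by
  intro k j _ h
  have hk : 0 < k := NeZero.pos k
  have f20 : (2 : Fin 3) + 2 = 1 := by decide
  have f12 : (1 : Fin 3) + 2 = 0 := by decide
  have f01 : (0 : Fin 3) + 1 = 1 := by decide
  have f11 : (1 : Fin 3) + 1 = 2 := by decide
  have s1 : ∀ (i : ℕ) (hi : i + 1 < k), (rot k j k * h.toPerm (ngf k j))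
      (Sum.inl (⟨i + j, by omega⟩, 2)) = Sum.inl (⟨i + j + 1, by omega⟩, 1) := by
    intro i hi
    have e : (i + j) + 1 < k + j := by omega
    simp [Perm.mul_apply, ngf, rot, e]
  have s2 : ∀ (i : ℕ) (hi : i + 1 < k), (rot k j k * h.toPerm (ngf k j))
      (Sum.inl (⟨i + j + 1, by omega⟩, 1)) = Sum.inr (Sum.inl (⟨i + 1, by omega⟩, 0)) := by
    intro i hi
    have e : ¬ ((i + j) + 1 < j) := by omega
    have e2 : i + j + 1 - j = i + 1 := by omega
    simp [Perm.mul_apply, ngf, rot, e, e2, hi, Equiv.prodShear, f12]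
  have s3 : ∀ (i : ℕ) (hi : i + 1 < k), (rot k j k * h.toPerm (ngf k j))
      (Sum.inr (Sum.inl (⟨i + 1, by omega⟩, 0))) = Sum.inr (Sum.inl (⟨i, by omega⟩, 1)) := by
    intro i hi
    have e : i < k := by omega
    simp [Perm.mul_apply, ngf, rot, e, Equiv.prodShear, f20]
  have s4 : ∀ (i : ℕ) (hi : i + 1 < k), (rot k j k * h.toPerm (ngf k j))
      (Sum.inr (Sum.inl (⟨i, by omega⟩, 1))) = Sum.inl (⟨i + j, by omega⟩, 2) := by
    intro i hi
    simp [Perm.mul_apply, ngf, rot, f11]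
  have hinj : Function.Injective (fun i : Fin (k - 1) =>
      (Quotient.mk (SameCycle.setoid (rot k j k * h.toPerm (ngf k j)))
        (Sum.inl (⟨(i : ℕ) + j, by omega⟩, 2) : TT k j))) := by
    intro a b hab
    have hsc : SameCycle (rot k j k * h.toPerm (ngf k j))
      (Sum.inl (⟨(a : ℕ) + j, by omega⟩, 2) : TT k j)
      (Sum.inl (⟨(b : ℕ) + j, by omega⟩, 2) : TT k j) := Quotient.exact hab
    have ha : (a : ℕ) + 1 < k := by omega
    have hm := mem_of_sc (S := {(Sum.inl (⟨(a : ℕ) + j, by omega⟩, 2) : TT k j),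
      Sum.inl (⟨(a : ℕ) + j + 1, by omega⟩, 1), Sum.inr (Sum.inl (⟨(a : ℕ) + 1, by omega⟩, 0)),
      Sum.inr (Sum.inl (⟨(a : ℕ), by omega⟩, 1))}) (by
        rintro z (rfl | rfl | rfl | rfl)
        · rw [s1 _ ha]; simp
        · rw [s2 _ ha]; simp
        · rw [s3 _ ha]; simp
        · rw [s4 _ ha]; simp) hsc (by simp)
    simp only [Set.mem_insert_iff, Set.mem_singleton_iff, Sum.inl.injEq, Prod.mk.injEq,
      Fin.mk.injEq, reduceCtorEq, or_false] at hm
    rcases hm with hm | hm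
    · apply Fin.ext; omega
    · exact absurd hm.2 (by decide)
  have hc := Nat.card_le_card_of_injective _ hinj
  rw [Nat.card_eq_fintype_card, Fintype.card_fin] at hc
  unfold cyc
  omega

end Pool.Agent.Helper25.HW
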